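import Mathlib

set_option autoImplicit false

namespace Pool.Agent.Results.MP_558aee_co.Gap

open Matrix Polynomial Finset

/-- `A ∈ 𝒮(G)`: real symmetric, off-diagonal entry nonzero exactly on edges -/
def InS {n : ℕ} (G : SimpleGraph (Fin n)) (A : Matrix (Fin n) (Fin n) ℝ) : Prop :=
  A.IsSymm ∧ ∀ i j, i ≠ j → (A i j ≠ 0 ↔ G.Adj i j)

/-- `q(G)`: least number of distinct eigenvalues of a matrix in `𝒮(G)` -/
noncomputable def q {n : ℕ} (G : SimpleGraph (Fin n)) : ℕ :=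
  sInf {m | ∃ A, InS G A ∧ A.charpoly.roots.toFinset.card = m}

/-- `G` achieves the bipartition `[n - k, k]` -/
def Achieves {n : ℕ} (G : SimpleGraph (Fin n)) (k : ℕ) : Prop :=
  ∃ A, InS G A ∧ ∃ a b : ℝ, a ≠ b ∧ A.charpoly = (X - C a) ^ (n - k) * (X - C b) ^ k

/-- minimal multiplicity bipartition -/
noncomputable def MB {n : ℕ} (G : SimpleGraph (Fin n)) : ℕ :=
  sInf {k | 1 ≤ k ∧ k ≤ n / 2 ∧ Achieves G k}

/-- minimum semidefinite rank -/
noncomputable def mrPlus {n : ℕ} (G : SimpleGraph (Fin n)) : ℕ :=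
  sInf {r | ∃ A, InS G A ∧ A.PosSemidef ∧ A.rank = r}

/-- integer vectors in dimension 3 -/
def w3 : Matrix (Fin 3) (Fin 9) ℤ :=
  !![1, 0, 0, 0, 0, 1, -1, 1, -1; 0, 1, 0, 1, -1, 0, 0, 1, -1; 0, 0, 1, 1, 1, 1, 1, -1, -1]

/-- integer vectors in dimension 4 -/
def w4 : Matrix (Fin 4) (Fin 9) ℤ :=
  !![1, 0, 0, 0, 0, 12, 12, -3, -3; 0, 1, 0, 4, -4, 0, 0, -4, 4;
     0, 0, 1, 5, 5, 5, 5, 2, 2; 0, 0, 0, 3, -3, 13, -13, 2, -2]

def cw : Fin 9 → ℤ := ![210, 14, 224, 20, 20, 3, 3, 30, 30]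

def G : SimpleGraph (Fin 9) where
  Adj i j := i ≠ j ∧ ∑ l, w3 l i * w3 l j ≠ 0
  symm := ⟨fun i j h => ⟨h.1.symm, by simpa [mul_comm] using h.2⟩⟩
  loopless := ⟨fun i h => h.1 rfl⟩

instance : DecidableRel G.Adj := fun i j =>
  inferInstanceAs (Decidable (i ≠ j ∧ ∑ l, w3 l i * w3 l j ≠ 0))

theorem pat4 : ∀ i j : Fin 9, i ≠ j → (∑ l, w4 l i * w4 l j ≠ 0 ↔ G.Adj i j) := by decide +kernel

theorem frame : ∀ a b : Fin 4, ∑ i, cw i * (w4 a i * w4 b i) = if a = b then 1614 else 0 := by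
  decide +kernel

theorem cpos : ∀ i, 0 < cw i := by decide +kernel

theorem mr_le : mrPlus G ≤ 3 := by
  let W : Matrix (Fin 3) (Fin 9) ℝ := w3.map (Int.cast)
  have e : ∀ i j, (Wᴴ * W) i j = ((∑ l, w3 l i * w3 l j : ℤ) : ℝ) := fun i j => by
    simp [W, mul_apply]
  refine le_trans (Nat.sInf_le ⟨Wᴴ * W, ⟨?_, fun i j h => ?_⟩,
    posSemidef_conjTranspose_mul_self W, rfl⟩) ?_
  · ext i j; simp only [transpose_apply, e, mul_comm]
  · rw [e, Int.cast_ne_zero]; exact ⟨fun h' => ⟨h, h'⟩, fun h' => h'.2⟩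
  · exact (rank_mul_le_right _ _).trans (by simpa using rank_le_height W)

noncomputable def W4 : Matrix (Fin 4) (Fin 9) ℝ :=
  fun a i => √((cw i : ℝ) / 1614) * (w4 a i : ℝ)

theorem W4_frame : W4 * W4ᵀ = 1 := by
  ext a b
  have h : ∀ i, W4 a i * W4 b i = ((cw i * (w4 a i * w4 b i) : ℤ) : ℝ) / 1614 := fun i => by
    have : (0 : ℝ) ≤ (cw i : ℝ) / 1614 := by have := cpos i; positivity
    have h2 := Real.mul_self_sqrt this
    simp only [W4]; push_cast
    linear_combination ((w4 a i : ℝ) * w4 b i) * h2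
  simp only [mul_apply, transpose_apply, h, ← sum_div, ← Int.cast_sum, frame, one_apply]
  split_ifs <;> norm_num

theorem P_mem : InS G (W4ᵀ * W4) := by
  refine ⟨by simp [Matrix.IsSymm], fun i j h => ?_⟩
  have e : (W4ᵀ * W4) i j = √((cw i : ℝ) / 1614) * √((cw j : ℝ) / 1614) *
      ((∑ l, w4 l i * w4 l j : ℤ) : ℝ) := by
    simp only [mul_apply, transpose_apply, W4]; push_cast; rw [mul_sum]
    exact sum_congr rfl fun l _ => by ring
  have p : ∀ i, √((cw i : ℝ) / 1614) ≠ 0 := fun i => by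
    have := cpos i
    exact (Real.sqrt_pos.2 (by positivity)).ne'
  rw [e, ← pat4 i j h]
  simp only [ne_eq, mul_eq_zero, p, false_or, Int.cast_eq_zero]

theorem P_char : (W4ᵀ * W4).charpoly = (X - C (0 : ℝ)) ^ (9 - 4) * (X - C (1 : ℝ)) ^ 4 := by
  rw [charpoly_mul_comm_of_le _ _ (by simp), W4_frame, charpoly_one]
  simp

theorem spec {n : ℕ} (A : Matrix (Fin n) (Fin n) ℝ) (hA : A.IsSymm) :
    ∃ (U : Matrix (Fin n) (Fin n) ℝ) (d : Fin n → ℝ),
      A = U * diagonal d * Uᵀ ∧ U * Uᵀ = 1 ∧ Uᵀ * U = 1 ∧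
      A.charpoly.roots = Multiset.map d univ.val := by
  have h : A.IsHermitian := by simpa [Matrix.IsHermitian, Matrix.IsSymm] using hA
  refine ⟨h.eigenvectorUnitary, h.eigenvalues, ?_, ?_, ?_, ?_⟩
  · conv_lhs => rw [h.spectral_theorem, Unitary.conjStarAlgAut_apply]
    simp [star_eq_conjTranspose]
  · simpa [star_eq_conjTranspose] using Unitary.coe_mul_star_self h.eigenvectorUnitary
  · simpa [star_eq_conjTranspose] using Unitary.coe_star_mul_self h.eigenvectorUnitary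
  · simpa using h.roots_charpoly_eq_eigenvalues

theorem gram (P : Fin 9 → Fin 9 → ℝ) (x y z : Fin 9 → ℝ)
    (h : ∀ i j, P i j = x i * x j + y i * y j + z i * z j)
    (h01 : P 0 1 = 0) (h02 : P 0 2 = 0) (h12 : P 1 2 = 0) (i j : Fin 9) :
    P 0 0 * P 1 1 * P 2 2 * P i j =
      P 1 1 * P 2 2 * (P 0 i * P 0 j) + P 0 0 * P 2 2 * (P 1 i * P 1 j) +
        P 0 0 * P 1 1 * (P 2 i * P 2 j) := by
  have key : P 0 0 * P 1 1 * P 2 2 * P i j - (P 1 1 * P 2 2 * (P 0 i * P 0 j) +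
      P 0 0 * P 2 2 * (P 1 i * P 1 j) + P 0 0 * P 1 1 * (P 2 i * P 2 j)) =
      P i j * (P 0 0 * P 1 2 ^ 2 + P 1 1 * P 0 2 ^ 2 + P 2 2 * P 0 1 ^ 2 - 2 * P 0 1 * P 0 2 * P 1 2)
      - P 1 2 ^ 2 * (P 0 i * P 0 j) - P 0 2 ^ 2 * (P 1 i * P 1 j) - P 0 1 ^ 2 * (P 2 i * P 2 j)
      + (P 0 2 * P 1 2 - P 0 1 * P 2 2) * (P 0 i * P 1 j + P 1 i * P 0 j)
      + (P 0 1 * P 1 2 - P 0 2 * P 1 1) * (P 0 i * P 2 j + P 2 i * P 0 j)
      + (P 0 1 * P 0 2 - P 1 2 * P 0 0) * (P 1 i * P 2 j + P 2 i * P 1 j) := by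
    simp only [h]; ring
  rw [h01, h02, h12] at key
  linear_combination key

theorem no3 (P : Fin 9 → Fin 9 → ℝ) (x y z : Fin 9 → ℝ)
    (h : ∀ i j, P i j = x i * x j + y i * y j + z i * z j)
    (hp : ∀ i j, i ≠ j → (P i j ≠ 0 ↔ G.Adj i j))
    (hs : ∑ i, P 0 i * P 1 i = P 0 1) : False := by
  have Z : ∀ i j, i ≠ j → ¬ G.Adj i j → P i j = 0 := fun i j a b => by
    by_contra c; exact b ((hp i j a).1 c)
  have N : ∀ i j, G.Adj i j → P i j ≠ 0 := fun i j a => (hp i j a.ne).2 a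
  have pos : ∀ i j, P i j ≠ 0 → 0 < P i i := fun i j a => by
    by_contra c
    rw [h] at c a
    have h1 : x i = 0 := by nlinarith [sq_nonneg (x i), sq_nonneg (y i), sq_nonneg (z i)]
    have h2 : y i = 0 := by nlinarith [sq_nonneg (x i), sq_nonneg (y i), sq_nonneg (z i)]
    have h3 : z i = 0 := by nlinarith [sq_nonneg (x i), sq_nonneg (y i), sq_nonneg (z i)]
    simp [h1, h2, h3] at a
  have z01 := Z 0 1 (by decide) (by decide +kernel)
  have z02 := Z 0 2 (by decide) (by decide +kernel)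
  have z12 := Z 1 2 (by decide) (by decide +kernel)
  have z10 := Z 1 0 (by decide) (by decide +kernel)
  have z03 := Z 0 3 (by decide) (by decide +kernel)
  have z04 := Z 0 4 (by decide) (by decide +kernel)
  have z15 := Z 1 5 (by decide) (by decide +kernel)
  have z16 := Z 1 6 (by decide) (by decide +kernel)
  have g := gram P x y z h z01 z02 z12
  have e34 := g 3 4
  have e56 := g 5 6
  have e73 := g 7 3
  have e75 := g 7 5
  have e84 := g 8 4
  have e86 := g 8 6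
  rw [Z 3 4 (by decide) (by decide +kernel), z03] at e34
  rw [Z 5 6 (by decide) (by decide +kernel), z15] at e56
  rw [Z 7 3 (by decide) (by decide +kernel), z03] at e73
  rw [Z 7 5 (by decide) (by decide +kernel), z15] at e75
  rw [Z 8 4 (by decide) (by decide +kernel), z04] at e84
  rw [Z 8 6 (by decide) (by decide +kernel), z16] at e86
  simp only [Fin.sum_univ_succ, Fin.sum_univ_zero] at hs
  have hs' : P 0 7 * P 1 7 + P 0 8 * P 1 8 = 0 := by
    have : P 0 0 * P 1 0 + (P 0 1 * P 1 1 + (P 0 2 * P 1 2 + (P 0 3 * P 1 3 + (P 0 4 * P 1 4 +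
      (P 0 5 * P 1 5 + (P 0 6 * P 1 6 + (P 0 7 * P 1 7 + (P 0 8 * P 1 8 + 0)))))))) = P 0 1 := hs
    rw [z01, z02, z10, z03, z04, z15, z16] at this
    linarith
  have d0 := pos 0 5 (N _ _ (by decide +kernel))
  have d1 := pos 1 3 (N _ _ (by decide +kernel))
  have d2 := pos 2 3 (N _ _ (by decide +kernel))
  have n13 := N 1 3 (by decide +kernel)
  have n14 := N 1 4 (by decide +kernel)
  have n05 := N 0 5 (by decide +kernel)
  have n06 := N 0 6 (by decide +kernel)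
  have n27 := N 2 7 (by decide +kernel)
  have n28 := N 2 8 (by decide +kernel)
  have f34 : P 2 2 * (P 1 3 * P 1 4) = -(P 1 1 * (P 2 3 * P 2 4)) :=
    mul_left_cancel₀ d0.ne' (by linear_combination -e34)
  have f56 : P 2 2 * (P 0 5 * P 0 6) = -(P 0 0 * (P 2 5 * P 2 6)) :=
    mul_left_cancel₀ d1.ne' (by linear_combination -e56)
  have f73 : P 2 2 * (P 1 7 * P 1 3) = -(P 1 1 * (P 2 7 * P 2 3)) :=
    mul_left_cancel₀ d0.ne' (by linear_combination -e73)
  have f75 : P 2 2 * (P 0 7 * P 0 5) = -(P 0 0 * (P 2 7 * P 2 5)) :=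
    mul_left_cancel₀ d1.ne' (by linear_combination -e75)
  have f84 : P 2 2 * (P 1 8 * P 1 4) = -(P 1 1 * (P 2 8 * P 2 4)) :=
    mul_left_cancel₀ d0.ne' (by linear_combination -e84)
  have f86 : P 2 2 * (P 0 8 * P 0 6) = -(P 0 0 * (P 2 8 * P 2 6)) :=
    mul_left_cancel₀ d1.ne' (by linear_combination -e86)
  have a1 := congrArg₂ (· * ·) (congrArg₂ (· * ·) f73 f75) (congrArg₂ (· * ·) f84 f86)
  have a2 := congrArg₂ (· * ·) f34 f56
  have a3 : (P 2 2 ^ 2 * (P 1 3 * P 1 4 * P 0 5 * P 0 6)) *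
      (P 2 2 ^ 2 * ((P 0 7 * P 1 7) * (P 0 8 * P 1 8))) =
      (P 2 2 ^ 2 * (P 1 3 * P 1 4 * P 0 5 * P 0 6)) * 0 +
      (P 1 3 * P 1 4 * P 0 5 * P 0 6) * P 2 2 ^ 2 * (P 0 0 * P 1 1 * (P 2 7 * P 2 8) ^ 2) := by
    linear_combination a1 - (P 0 0 * P 1 1 * (P 2 7 * P 2 8) ^ 2) * a2
  have a4 : P 2 2 ^ 2 * ((P 0 7 * P 1 7) * (P 0 8 * P 1 8)) =
      P 0 0 * P 1 1 * (P 2 7 * P 2 8) ^ 2 :=
    mul_left_cancel₀ (a := P 2 2 ^ 2 * (P 1 3 * P 1 4 * P 0 5 * P 0 6)) (by positivity)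
      (by linear_combination a3)
  have a5 : 0 < P 0 0 * P 1 1 * (P 2 7 * P 2 8) ^ 2 := by positivity
  have a6 : P 0 8 * P 1 8 = -(P 0 7 * P 1 7) := by linarith
  rw [a6] at a4
  nlinarith [sq_nonneg (P 2 2 * (P 0 7 * P 1 7))]

theorem no_small (k : ℕ) (hk : k ≤ 3) : ¬ Achieves G k := by
  rintro ⟨A, ⟨hs, hA⟩, a, b, hab, hc⟩
  obtain ⟨U, d, e, u1, u2, hr⟩ := spec A hs
  rw [hc, roots_mul (mul_ne_zero (pow_ne_zero _ (X_sub_C_ne_zero a)) (pow_ne_zero _ (X_sub_C_ne_zero b))),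
    roots_pow, roots_pow, roots_X_sub_C, roots_X_sub_C] at hr
  have hd : ∀ l, d l = a ∨ d l = b := fun l => by
    have : d l ∈ Multiset.map d univ.val := Multiset.mem_map_of_mem _ (mem_univ l)
    rw [← hr, Multiset.mem_add] at this
    exact this.imp (fun h => by simpa using Multiset.mem_of_mem_nsmul h)
      (fun h => by simpa using Multiset.mem_of_mem_nsmul h)
  have hF : (univ.filter fun l => b = d l).card ≤ 3 := by
    have := congrArg (Multiset.count b) hr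
    rw [Multiset.count_map] at this
    simp only [Multiset.count_add, Multiset.count_nsmul, Multiset.count_singleton_self,
      Multiset.count_singleton, hab.symm, if_false] at this
    exact le_trans (le_of_eq (by rw [card_def, filter_val]; omega)) hk
  obtain ⟨F, hsub, -, hF3⟩ := exists_subsuperset_card_eq (subset_univ _) hF (by simp)
  obtain ⟨s, t, u, hst, hsu, htu, rfl⟩ := card_eq_three.1 hF3
  let ε : Fin 9 → ℝ := fun l => if b = d l then 1 else 0
  have ε2 : ∀ l, ε l * ε l = ε l := fun l => by simp only [ε]; split_ifs <;> simp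
  let P : Matrix (Fin 9) (Fin 9) ℝ := U * diagonal ε * Uᵀ
  have hD : diagonal d = (b - a) • diagonal ε + a • (1 : Matrix (Fin 9) (Fin 9) ℝ) := by
    ext i j
    by_cases h : i = j
    · subst h
      rcases hd i with h | h <;> simp [ε, h, hab.symm]
    · simp [h]
  have hAP : A = (b - a) • P + a • (1 : Matrix (Fin 9) (Fin 9) ℝ) := by
    rw [e, hD, Matrix.mul_add, Matrix.add_mul, Matrix.mul_smul, Matrix.smul_mul, Matrix.mul_smul,
      Matrix.smul_mul, Matrix.mul_one, u1]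
  have hPP : P * Pᵀ = P := by
    have : Pᵀ = P := by simp [P, Matrix.mul_assoc]
    rw [this]
    calc P * P = U * (diagonal ε * (Uᵀ * U) * diagonal ε) * Uᵀ := by simp only [P, Matrix.mul_assoc]
      _ = P := by rw [u2, Matrix.mul_one, diagonal_mul_diagonal]; simp only [ε2, P]
  refine no3 P (fun i => ε s * U i s) (fun i => ε t * U i t) (fun i => ε u * U i u)
    (fun i j => ?_) (fun i j h => ?_) ?_
  · have : P i j = ∑ l, U i l * ε l * U j l := by simp [P, mul_apply, diagonal_apply]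
    rw [this, ← sum_subset (subset_univ ({s, t, u} : Finset (Fin 9))) (fun l _ hl => ?_),
      sum_insert (by simp [hst, hsu]), sum_pair htu]
    · linear_combination (-U i s * U j s) * ε2 s - (U i t * U j t) * ε2 t - (U i u * U j u) * ε2 u
    · have : ¬ b = d l := fun c => hl (hsub (by simpa using c))
      simp [ε, this]
  · rw [← hA i j h, hAP]
    simp [h, sub_ne_zero.2 hab.symm]
  · simpa [mul_apply] using congrFun (congrFun hPP 0) 1

theorem q_eq : q G = 2 := by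
  have m : 2 ∈ {m | ∃ A, InS G A ∧ A.charpoly.roots.toFinset.card = m} := by
    refine ⟨_, P_mem, ?_⟩
    rw [P_char, roots_mul (mul_ne_zero (pow_ne_zero _ (X_sub_C_ne_zero _))
      (pow_ne_zero _ (X_sub_C_ne_zero _))), roots_pow, roots_pow, roots_X_sub_C, roots_X_sub_C,
      Multiset.toFinset_add, Multiset.toFinset_nsmul _ _ (by norm_num),
      Multiset.toFinset_nsmul _ _ (by norm_num)]
    simp
  refine le_antisymm (Nat.sInf_le m) (le_csInf ⟨_, m⟩ ?_)
  rintro r ⟨A, ⟨hs, hA⟩, rfl⟩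
  obtain ⟨U, d, e, u1, -, hr⟩ := spec A hs
  by_contra c
  have hd : ∀ l, d l = d 0 := fun l =>
    card_le_one.1 (by omega : A.charpoly.roots.toFinset.card ≤ 1)
      _ (by rw [hr]; exact Multiset.mem_toFinset.2 (Multiset.mem_map_of_mem _ (mem_univ_val _)))
      _ (by rw [hr]; exact Multiset.mem_toFinset.2 (Multiset.mem_map_of_mem _ (mem_univ_val _)))
  have hD : diagonal d = d 0 • (1 : Matrix (Fin 9) (Fin 9) ℝ) := by
    ext i j
    by_cases h : i = j
    · subst h; simp [hd i]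
    · simp [h]
  rw [hD, Matrix.mul_smul, Matrix.smul_mul, Matrix.mul_one, u1] at e
  exact (hA 0 5 (by decide)).2 (by decide +kernel) (by rw [e]; simp)

theorem result : ∃ (n : ℕ) (G : SimpleGraph (Fin n)), q G = 2 ∧ mrPlus G < MB G := by
  have m : 4 ∈ {k | 1 ≤ k ∧ k ≤ 9 / 2 ∧ Achieves G k} :=
    ⟨by norm_num, by norm_num, _, P_mem, 0, 1, by norm_num, P_char⟩
  have h : 4 ≤ MB G := le_csInf ⟨4, m⟩ fun k hk => by
    by_contra c
    exact no_small k (by omega) hk.2.2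
  exact ⟨9, G, q_eq, lt_of_le_of_lt mr_le h⟩

end Pool.Agent.Results.MP_558aee_co.Gap
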